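import Pool.Agent.Helper80.SX.Param

/-!
Local parametrisations of a subset of a normed space with smooth left inverses, actions by smooth
maps of the ambient space, and descent of tensor fields to the charts.
-/

set_option autoImplicit false

open Set Filter Topology
open scoped Manifold ContDiff

namespace Pool.Agent.Helper80.SX

/-- Smooth parametrisations `ψ i : U i → Y ∩ O i` of a subset `Y` of a normed space, with smooth
inverses `pr i` defined on the open sets `O i` of the ambient space. -/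
structure Emb (n : ℕ∞ω) (E : Type*) [NormedAddCommGroup E] [NormedSpace ℝ E] {V : Type*}
    [NormedAddCommGroup V] [NormedSpace ℝ V] (Y : Set V) (ι : Type*) where
  U : ι → Set E
  O : ι → Set V
  ψ : ι → E → V
  pr : ι → V → E
  isOpen_U : ∀ i, IsOpen (U i)
  isOpen_O : ∀ i, IsOpen (O i)
  smooth_ψ : ∀ i, ContDiffOn ℝ n (ψ i) (U i)
  smooth_pr : ∀ i, ContDiffOn ℝ n (pr i) (O i)
  mem_Y : ∀ i, ∀ p ∈ U i, ψ i p ∈ Y
  mem_O : ∀ i, ∀ p ∈ U i, ψ i p ∈ O i
  left_inv : ∀ i, ∀ p ∈ U i, pr i (ψ i p) = p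
  mem_U : ∀ i, ∀ y ∈ Y, y ∈ O i → pr i y ∈ U i
  right_inv : ∀ i, ∀ y ∈ Y, y ∈ O i → ψ i (pr i y) = y
  cover : ∀ y ∈ Y, ∃ i, y ∈ O i

namespace Emb

variable {n : ℕ∞ω} {E : Type*} [NormedAddCommGroup E] [NormedSpace ℝ E] {V : Type*}
  [NormedAddCommGroup V] [NormedSpace ℝ V] {Y : Set V} {ι : Type*}

open Classical in
/-- The parametrisation as a map to the subtype. -/
noncomputable def par [Nonempty Y] (D : Emb n E Y ι) (i : ι) (p : E) : Y :=
  if h : p ∈ D.U i then ⟨D.ψ i p, D.mem_Y i p h⟩ else Classical.arbitrary Y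

lemma par_coe [Nonempty Y] (D : Emb n E Y ι) (i : ι) {p : E} (hp : p ∈ D.U i) :
    (D.par i p : V) = D.ψ i p := by
  unfold par
  rw [dif_pos hp]

lemma par_pr [Nonempty Y] (D : Emb n E Y ι) (i : ι) (y : Y) (hy : (y : V) ∈ D.O i) :
    D.par i (D.pr i y) = y :=
  Subtype.ext ((D.par_coe i (D.mem_U i y y.2 hy)).trans (D.right_inv i y y.2 hy))

/-- The transition maps, composed with a smooth map of the ambient space. -/
lemma transition [Nonempty Y] (D : Emb n E Y ι) (a : V → V) (i j : ι) {p q : E} (hp : p ∈ D.U i)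
    (hq : q ∈ D.U j) (ha : ContDiffAt ℝ n a (D.ψ i p)) (b : Y → Y)
    (hb : ∀ y : Y, (b y : V) = a y) (h : b (D.par i p) = D.par j q) :
    ContDiffAt ℝ n (fun p' => D.pr j (a (D.ψ i p'))) p ∧ D.pr j (a (D.ψ i p)) = q ∧
      ∀ᶠ p' in 𝓝 p, D.par j (D.pr j (a (D.ψ i p'))) = b (D.par i p') := by
  have h1 : a (D.ψ i p) = D.ψ j q := by
    rw [← D.par_coe i hp, ← hb, h, D.par_coe j hq]
  have h2 : a (D.ψ i p) ∈ D.O j := by
    rw [h1]
    exact D.mem_O j q hq
  have h3 : ContDiffAt ℝ n (D.ψ i) p := (D.smooth_ψ i).contDiffAt ((D.isOpen_U i).mem_nhds hp)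
  have h4 : ContDiffAt ℝ n (fun p' => a (D.ψ i p')) p := ContDiffAt.comp p ha h3
  refine ⟨?_, ?_, ?_⟩
  · exact ContDiffAt.comp p ((D.smooth_pr j).contDiffAt ((D.isOpen_O j).mem_nhds h2)) h4
  · rw [h1, D.left_inv j q hq]
  · have h5 : ∀ᶠ p' in 𝓝 p, a (D.ψ i p') ∈ D.O j :=
      h4.continuousAt.eventually_mem ((D.isOpen_O j).mem_nhds h2)
    filter_upwards [h5, (D.isOpen_U i).mem_nhds hp] with p' h6 h7
    have h8 : a (D.ψ i p') = (b (D.par i p') : V) := by
      rw [hb, D.par_coe i h7]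
    rw [h8] at h6 ⊢
    exact D.par_pr j _ h6

/-- The parametrisations of the subtype. -/
noncomputable def param [Nonempty Y] (D : Emb n E Y ι) : Param n E Y ι where
  U := D.U
  Φ := D.par
  isOpen_U := D.isOpen_U
  cont i := by
    rw [Topology.IsInducing.subtypeVal.continuousOn_iff]
    exact (D.smooth_ψ i).continuousOn.congr fun p hp => D.par_coe i hp
  inj i p hp q hq h := by
    have h1 : D.ψ i p = D.ψ i q := by
      rw [← D.par_coe i hp, ← D.par_coe i hq, h]
    rw [← D.left_inv i p hp, h1, D.left_inv i q hq]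
  isOpen_image i B hB hB' := by
    have h1 : IsOpen (D.O i ∩ D.pr i ⁻¹' B) :=
      (D.smooth_pr i).continuousOn.isOpen_inter_preimage (D.isOpen_O i) hB'
    have h2 : D.par i '' B = Subtype.val ⁻¹' (D.O i ∩ D.pr i ⁻¹' B) := by
      ext y
      constructor
      · rintro ⟨p, hp, rfl⟩
        rw [mem_preimage, D.par_coe i (hB hp)]
        refine ⟨D.mem_O i p (hB hp), ?_⟩
        rw [mem_preimage, D.left_inv i p (hB hp)]
        exact hp
      · rintro ⟨h3, h4⟩
        exact ⟨_, h4, D.par_pr i y h3⟩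
    rw [h2]
    exact h1.preimage continuous_subtype_val
  cover y := by
    obtain ⟨i, hi⟩ := D.cover y y.2
    exact ⟨i, D.pr i y, D.mem_U i y y.2 hi, D.par_pr i y hi⟩
  smooth i j p hp q hq h := by
    obtain ⟨h1, h2, h3⟩ := D.transition id i j hp hq contDiffAt_id id (fun _ => rfl) h
    exact ⟨_, h1, h2, h3⟩

variable {G : Type*} [Group G] [MulAction G Y]

/-- The action of smooth maps of the ambient space is smooth in the parametrisations. -/
lemma smooth_smul [Nonempty Y] (D : Emb n E Y ι) (a : G → V → V)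
    (ha : ∀ (g : G), ∀ y ∈ Y, ContDiffAt ℝ n (a g) y)
    (hb : ∀ (g : G) (y : Y), ((g • y : Y) : V) = a g y) (g : G) (i j : ι) (p : E)
    (hp : p ∈ D.param.U i) (q : E) (hq : q ∈ D.param.U j)
    (h : g • D.param.Φ i p = D.param.Φ j q) :
    ∃ f : E → E, ContDiffAt ℝ n f p ∧ f p = q ∧
      ∀ᶠ p' in 𝓝 p, D.param.Φ j (f p') = g • D.param.Φ i p' := by
  obtain ⟨h1, h2, h3⟩ := D.transition (a g) i j hp hq (ha g _ (D.mem_Y i p hp))
    (fun y => g • y) (hb g) h
  exact ⟨_, h1, h2, h3⟩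

omit [NormedSpace ℝ V] in
/-- The action is by homeomorphisms. -/
lemma continuousConstSMul (a : G → V → V) (ha : ∀ g : G, ContinuousOn (a g) Y)
    (hb : ∀ (g : G) (y : Y), ((g • y : Y) : V) = a g y) : ContinuousConstSMul G Y := by
  refine ⟨fun g => ?_⟩
  rw [Topology.IsInducing.subtypeVal.continuous_iff]
  have h1 : (Subtype.val ∘ fun y : Y => g • y) = fun y : Y => a g y := by
    funext y
    exact hb g y
  rw [h1]
  exact continuousOn_iff_continuous_domRestrict.1 (ha g)

end Emb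

/-! ### Descent of tensor fields to all charts -/

namespace Param

variable {n : ℕ∞ω} {E : Type*} [NormedAddCommGroup E] [NormedSpace ℝ E] {X : Type*}
  [TopologicalSpace X] {ι : Type*} (P : Param n E X ι)

open Classical in
/-- The field in the chart `e`, from the fields in the parametrisations. -/
noncomputable def field {W : Type*} [Inhabited W] (T : ι → E → W) (e : OpenPartialHomeomorph X E) :
    E → W :=
  if h : ∃ i, P.chart i = e then T h.choose else fun _ => default

/-- If the fields `T i` are related by the transition maps, so are the fields in the charts. -/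
lemma field_rel {W : Type*} [Inhabited W] (T : ι → E → W) (R : (E → E) → E → W → W → Prop)
    (hR : ∀ (f g : E → E) (p : E) (w w' : W), f =ᶠ[𝓝 p] g → R f p w w' → R g p w w')
    (hT : ∀ i j, ∀ p ∈ P.U i, ∀ g : E → E, ContDiffAt ℝ n g p →
      (∀ᶠ p' in 𝓝 p, g p' ∈ P.U j ∧ P.Φ j (g p') = P.Φ i p') → R g p (T i p) (T j (g p)))
    (e e' : OpenPartialHomeomorph X E) (he : ∃ i, P.chart i = e) (he' : ∃ i, P.chart i = e')
    (p : E) (hp : p ∈ (e.symm ≫ₕ e').source) :
    R (e.symm ≫ₕ e') p (P.field T e p) (P.field T e' ((e.symm ≫ₕ e') p)) := by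
  unfold field
  rw [dif_pos he, dif_pos he']
  set i := he.choose with hi
  set j := he'.choose with hj
  have h1 : P.chart i = e := he.choose_spec
  have h2 : P.chart j = e' := he'.choose_spec
  have h3 : p ∈ P.U i ∧ P.Φ i p ∈ P.Φ j '' P.U j := by
    rw [← h1, ← h2] at hp
    exact hp
  obtain ⟨g, hg, hgp, hg'⟩ := P.transition i j h3.1 h3.2
  have h4 : g =ᶠ[𝓝 p] (e.symm ≫ₕ e') := by
    filter_upwards [hg'] with p' h5
    rw [← h5.1, ← h1, ← h2]
    rfl
  have h5 : (e.symm ≫ₕ e') p = g p := h4.eq_of_nhds.symm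
  rw [h5]
  exact hR g _ p _ _ h4 (hT i j p h3.1 g hg (hg'.mono fun _ h => h.2))

/-- The field in the chart of a parametrisation is the given one. -/
lemma field_chart {W : Type*} [Inhabited W] (T : ι → E → W) (R : (E → E) → E → W → W → Prop)
    (hR : ∀ (p : E) (w w' : W), R id p w w' → w = w')
    (hT : ∀ i j, ∀ p ∈ P.U i, ∀ g : E → E, ContDiffAt ℝ n g p →
      (∀ᶠ p' in 𝓝 p, g p' ∈ P.U j ∧ P.Φ j (g p') = P.Φ i p') → R g p (T i p) (T j (g p)))
    (i : ι) (p : E) (hp : p ∈ P.U i) : P.field T (P.chart i) p = T i p := by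
  have he : ∃ j, P.chart j = P.chart i := ⟨i, rfl⟩
  unfold field
  rw [dif_pos he]
  set j := he.choose with hj
  have h1 : P.chart j = P.chart i := he.choose_spec
  have h2 : P.U j = P.U i := by
    rw [← P.chart_target j, h1, P.chart_target i]
  have h3 : P.Φ j = P.Φ i := by
    rw [← P.chart_symm j, h1, P.chart_symm i]
  have h4 := hT j i p (h2 ▸ hp) id contDiffAt_id (by
    filter_upwards [(P.isOpen_U i).mem_nhds hp] with p' hp'
    exact ⟨hp', by rw [h3]; rfl⟩)
  exact hR p _ _ h4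

end Param

/-! ### The derivative of a section at a zero -/

variable {E F : Type*} [NormedAddCommGroup E] [NormedSpace ℝ E] [NormedAddCommGroup F]
  [NormedSpace ℝ F]

/-- If `s = A (s' ∘ g)` near `p` and `s' (g p) = 0`, then `Ds (p) = A (p) ∘ Ds' (g p) ∘ Dg (p)`. -/
lemma hasFDerivAt_section {F' : Type*} [NormedAddCommGroup F'] [NormedSpace ℝ F']
    {s : E → F} {s' : E → F'} {A : E → F' →L[ℝ] F} {g : E → E} {p : E}
    {L : E →L[ℝ] F'} {M : E →L[ℝ] E} (hs' : HasFDerivAt s' L (g p)) (hg : HasFDerivAt g M p)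
    (hA : DifferentiableAt ℝ A p) (h0 : s' (g p) = 0)
    (h : ∀ᶠ p' in 𝓝 p, s p' = A p' (s' (g p'))) :
    HasFDerivAt s ((A p).comp (L.comp M)) p := by
  have h1 : HasFDerivAt (fun p' => s' (g p')) (L.comp M) p := hs'.comp p hg
  have h2 := hA.hasFDerivAt.clm_apply h1
  refine (h2.congr_of_eventuallyEq h).congr_fderiv ?_
  ext v
  simp [h0]

end Pool.Agent.Helper80.SX
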