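import Mathlib

/-!
Manifolds from local parametrisations.

`Param n E X ι`: a family `Φ i : E → X` of open embeddings of open sets `U i ⊆ E` with smooth
transitions.  It makes `X` a charted space and a manifold.  A family of this kind on `Y` which is
respected by a free properly discontinuous action gives a family on the quotient.
-/

set_option autoImplicit false

open Set Filter Topology
open scoped Manifold ContDiff

namespace Pool.Agent.Helper80.SX

variable {E : Type*} [NormedAddCommGroup E] [NormedSpace ℝ E]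

/-- Local parametrisations `Φ i : U i → X`, `U i ⊆ E` open, of a topological space `X`, with
transitions of class `C^n`. -/
structure Param (n : ℕ∞ω) (E : Type*) [NormedAddCommGroup E] [NormedSpace ℝ E] (X : Type*)
    [TopologicalSpace X] (ι : Type*) where
  /-- the domains -/
  U : ι → Set E
  /-- the parametrisations -/
  Φ : ι → E → X
  isOpen_U : ∀ i, IsOpen (U i)
  cont : ∀ i, ContinuousOn (Φ i) (U i)
  inj : ∀ i, InjOn (Φ i) (U i)
  isOpen_image : ∀ i, ∀ V ⊆ U i, IsOpen V → IsOpen (Φ i '' V)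
  cover : ∀ x, ∃ i, x ∈ Φ i '' U i
  smooth : ∀ i j, ∀ p ∈ U i, ∀ q ∈ U j, Φ i p = Φ j q →
    ∃ g : E → E, ContDiffAt ℝ n g p ∧ g p = q ∧ ∀ᶠ p' in 𝓝 p, Φ j (g p') = Φ i p'

namespace Param

variable {n : ℕ∞ω} {X : Type*} [TopologicalSpace X] {ι : Type*} (P : Param n E X ι)

open Classical in
/-- The chart inverse to the parametrisation `Φ i`. -/
noncomputable def chart (i : ι) : OpenPartialHomeomorph X E where
  toFun x := if h : x ∈ P.Φ i '' P.U i then h.choose else 0
  invFun := P.Φ i
  source := P.Φ i '' P.U i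
  target := P.U i
  map_source' x hx := by
    rw [dif_pos hx]
    exact hx.choose_spec.1
  map_target' p hp := ⟨p, hp, rfl⟩
  left_inv' x hx := by
    rw [dif_pos hx]
    exact hx.choose_spec.2
  right_inv' p hp := by
    have hx : P.Φ i p ∈ P.Φ i '' P.U i := ⟨p, hp, rfl⟩
    rw [dif_pos hx]
    exact P.inj i hx.choose_spec.1 hp hx.choose_spec.2
  open_source := P.isOpen_image i _ subset_rfl (P.isOpen_U i)
  open_target := P.isOpen_U i
  continuousOn_toFun := by
    rw [continuousOn_iff']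
    intro V hV
    refine ⟨P.Φ i '' (P.U i ∩ V), P.isOpen_image i _ inter_subset_left
      ((P.isOpen_U i).inter hV), ?_⟩
    ext x
    constructor
    · rintro ⟨hx1, hx⟩
      refine ⟨?_, hx⟩
      rw [mem_preimage, dif_pos hx] at hx1
      exact ⟨_, ⟨hx.choose_spec.1, hx1⟩, hx.choose_spec.2⟩
    · rintro ⟨⟨p, ⟨hp, hpV⟩, rfl⟩, hx⟩
      refine ⟨?_, hx⟩
      rw [mem_preimage, dif_pos hx]
      rwa [P.inj i hx.choose_spec.1 hp hx.choose_spec.2]
  continuousOn_invFun := P.cont i

@[simp] lemma chart_source (i : ι) : (P.chart i).source = P.Φ i '' P.U i := rfl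

@[simp] lemma chart_target (i : ι) : (P.chart i).target = P.U i := rfl

lemma chart_symm (i : ι) : ((P.chart i).symm : E → X) = P.Φ i := rfl

lemma chart_apply (i : ι) {p : E} (hp : p ∈ P.U i) : P.chart i (P.Φ i p) = p :=
  (P.chart i).right_inv hp

/-- The charted space structure given by the parametrisations. -/
@[instance_reducible]
noncomputable def chartedSpace : ChartedSpace E X where
  atlas := range P.chart
  chartAt x := P.chart (P.cover x).choose
  mem_chart_source x := (P.cover x).choose_spec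
  chart_mem_atlas _ := ⟨_, rfl⟩

lemma mem_atlas (i : ι) : letI := P.chartedSpace; P.chart i ∈ atlas E X := ⟨i, rfl⟩

lemma mem_atlas_iff (e : OpenPartialHomeomorph X E) :
    (letI := P.chartedSpace; e ∈ atlas E X) ↔ ∃ i, P.chart i = e := Iff.rfl

/-- Near a point of the overlap the transition is given by the map in `Param.smooth`. -/
lemma transition (i j : ι) {p : E} (hp : p ∈ P.U i) (h : P.Φ i p ∈ P.Φ j '' P.U j) :
    ∃ g : E → E, ContDiffAt ℝ n g p ∧ g p = P.chart j (P.Φ i p) ∧
      ∀ᶠ p' in 𝓝 p, P.chart j (P.Φ i p') = g p' ∧ g p' ∈ P.U j ∧ P.Φ j (g p') = P.Φ i p' := by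
  obtain ⟨q, hq, hqp⟩ := h
  obtain ⟨g, hg, hgp, hg'⟩ := P.smooth i j p hp q hq hqp.symm
  refine ⟨g, hg, ?_, ?_⟩
  · rw [hgp, ← hqp, P.chart_apply j hq]
  · have h1 : ∀ᶠ p' in 𝓝 p, g p' ∈ P.U j := by
      apply hg.continuousAt.eventually_mem
      rw [hgp]
      exact (P.isOpen_U j).mem_nhds hq
    filter_upwards [h1, hg'] with p' h1 h2
    exact ⟨by rw [← h2, P.chart_apply j h1], h1, h2⟩

lemma contDiffAt_transition (i j : ι) {p : E} (hp : p ∈ P.U i) (h : P.Φ i p ∈ P.Φ j '' P.U j) :
    ContDiffAt ℝ n (fun p' => P.chart j (P.Φ i p')) p := by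
  obtain ⟨g, hg, _, hg'⟩ := P.transition i j hp h
  exact hg.congr_of_eventuallyEq (hg'.mono fun _ h => h.1)

/-- The parametrisations make the space a manifold. -/
theorem isManifold : letI := P.chartedSpace; IsManifold 𝓘(ℝ, E) n X := by
  let _ := P.chartedSpace
  apply isManifold_of_contDiffOn
  rintro _ _ ⟨i, rfl⟩ ⟨j, rfl⟩
  simp only [modelWithCornersSelf_coe, modelWithCornersSelf_coe_symm, preimage_id, range_id,
    inter_univ, OpenPartialHomeomorph.trans_source, OpenPartialHomeomorph.symm_source,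
    chart_target, chart_source, Function.id_comp, Function.comp_id]
  rintro p ⟨hp, hp'⟩
  exact (P.contDiffAt_transition i j hp hp').contDiffWithinAt

end Param

/-! ### Quotients -/

variable {G Y ι : Type*} [Group G] [TopologicalSpace Y] [MulAction G Y]

/-- The quotient space. -/
abbrev Quo (G Y : Type*) [Group G] [MulAction G Y] : Type _ := MulAction.orbitRel.Quotient G Y

/-- The quotient map. -/
def quo (G : Type*) {Y : Type*} [Group G] [MulAction G Y] (y : Y) : Quo G Y :=
  Quotient.mk (MulAction.orbitRel G Y) y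

omit [TopologicalSpace Y] in
lemma quo_eq_iff (y y' : Y) : quo G y = quo G y' ↔ ∃ g : G, g • y = y' := by
  unfold quo
  rw [eq_comm, Quotient.eq]
  exact Iff.rfl

omit [TopologicalSpace Y] in
lemma quo_smul (g : G) (y : Y) : quo G (g • y) = quo G y :=
  ((quo_eq_iff y (g • y)).2 ⟨g, rfl⟩).symm

omit [TopologicalSpace Y] in
lemma quo_surjective : Function.Surjective (quo G : Y → Quo G Y) := Quotient.mk_surjective

lemma continuous_quo : Continuous (quo G : Y → Quo G Y) := continuous_quotient_mk'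

lemma isOpenMap_quo [ContinuousConstSMul G Y] : IsOpenMap (quo G : Y → Quo G Y) :=
  isOpenMap_quotient_mk'_mul

/-- Local parametrisations of the quotient by an action such that every point has a neighbourhood
which is disjoint from its translates. -/
noncomputable def Param.quotient {n : ℕ∞ω} (P : Param n E Y ι) [ContinuousConstSMul G Y]
    (hdis : ∀ y : Y, ∃ V ∈ 𝓝 y, ∀ g : G, ((g • ·) '' V ∩ V).Nonempty → g = 1)
    (hsm : ∀ (g : G) (i j : ι), ∀ p ∈ P.U i, ∀ q ∈ P.U j, g • P.Φ i p = P.Φ j q →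
      ∃ f : E → E, ContDiffAt ℝ n f p ∧ f p = q ∧ ∀ᶠ p' in 𝓝 p, P.Φ j (f p') = g • P.Φ i p') :
    Param n E (Quo G Y)
      (Σ i : ι, {B : Set E // IsOpen B ∧ B ⊆ P.U i ∧ InjOn (fun p => quo G (P.Φ i p)) B}) where
  U k := k.2.1
  Φ k p := quo G (P.Φ k.1 p)
  isOpen_U k := k.2.2.1
  cont k := continuous_quo.comp_continuousOn ((P.cont k.1).mono k.2.2.2.1)
  inj k := k.2.2.2.2
  isOpen_image k V hV hV' := by
    have h1 := isOpenMap_quo (G := G) _ (P.isOpen_image k.1 V (hV.trans k.2.2.2.1) hV')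
    rwa [image_image] at h1
  cover x := by
    obtain ⟨y, rfl⟩ := quo_surjective x
    obtain ⟨i, p, hp, rfl⟩ := P.cover y
    obtain ⟨V, hV, hV'⟩ := hdis (P.Φ i p)
    have h1 : IsOpen (P.U i ∩ P.Φ i ⁻¹' interior V) :=
      (P.cont i).isOpen_inter_preimage (P.isOpen_U i) isOpen_interior
    refine ⟨⟨i, P.U i ∩ P.Φ i ⁻¹' interior V, h1, inter_subset_left, ?_⟩, p,
      ⟨hp, mem_interior_iff_mem_nhds.2 hV⟩, rfl⟩
    rintro a ⟨ha, ha'⟩ b ⟨hb, hb'⟩ hab
    obtain ⟨g, hg⟩ := (quo_eq_iff _ _).1 hab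
    have h2 : g = 1 := hV' g ⟨P.Φ i b, ⟨P.Φ i a, interior_subset ha', hg⟩, interior_subset hb'⟩
    rw [h2, one_smul] at hg
    exact P.inj i ha hb hg
  smooth k l p hp q hq h := by
    obtain ⟨g, hg⟩ := (quo_eq_iff _ _).1 h
    obtain ⟨f, hf, hfp, hf'⟩ := hsm g k.1 l.1 p (k.2.2.2.1 hp) q (l.2.2.2.1 hq) hg
    refine ⟨f, hf, hfp, ?_⟩
    filter_upwards [hf'] with p' h1
    rw [h1, quo_smul]

/-- A quotient by a properly discontinuous free action: neighbourhoods disjoint from their
translates. -/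
lemma exists_disjoint [ContinuousConstSMul G Y] [ProperlyDiscontinuousSMul G Y]
    [LocallyCompactSpace Y] [T2Space Y] (hfree : ∀ (g : G) (y : Y), g • y = y → g = 1) (y : Y) :
    ∃ V ∈ 𝓝 y, ∀ g : G, ((g • ·) '' V ∩ V).Nonempty → g = 1 := by
  obtain ⟨U, hU, hU'⟩ := ProperlyDiscontinuousSMul.exists_nhds_image_smul_eq_self G y
  exact ⟨U, hU, fun g hg => hfree g y (hU' g hg)⟩

/-- The quotient is a Hausdorff space. -/
lemma t2_quo [ContinuousConstSMul G Y] [ProperlyDiscontinuousSMul G Y]
    [LocallyCompactSpace Y] [T2Space Y] : T2Space (Quo G Y) :=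
  inferInstance

/-- The quotient is compact if the translates of a compact set cover the space. -/
lemma compact_quo {K : Set Y} (hK : IsCompact K) (h : ∀ y : Y, ∃ g : G, g • y ∈ K) :
    CompactSpace (Quo G Y) := by
  refine ⟨?_⟩
  have h1 : quo G '' K = univ := by
    rw [eq_univ_iff_forall]
    intro x
    obtain ⟨y, rfl⟩ := quo_surjective x
    obtain ⟨g, hg⟩ := h y
    exact ⟨g • y, hg, quo_smul g y⟩
  rw [← h1]
  exact hK.image continuous_quo

end Pool.Agent.Helper80.SX
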